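import Mathlib
import Pool.Agent.R980.KonigProb

/-!
# The union of the optimal covers in the random König graph process has `n/2 (1 + o(1))` vertices

All notions (`Edge`, `nu`, `tau`, `IsKonig`, `IsOptimalCover`, `addEdge`, the process `proc`, the
probability `prob` and the union `DU` of the optimal covers) are defined in
`Pool/Agent/R980/Konig.lean`.
-/

set_option autoImplicit false

namespace Pool.Agent.Results.MP_de3ac5_pr.UnionOfOptimalCovers

open Finset Filter Topology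
open scoped Classical
open Pool.Agent.R980.Konig

theorem prob_le_one (n : ℕ) (A : (Fin (n.choose 2) ≃ Edge n) → Prop) : prob n A ≤ 1 := by
  unfold prob
  rw [div_le_one (card_orders_pos n)]
  exact_mod_cast card_le_univ _

theorem prob_compl (n : ℕ) (A : (Fin (n.choose 2) ≃ Edge n) → Prop) :
    prob n A + prob n (fun σ => ¬ A σ) = 1 := by
  unfold prob
  rw [← add_div, div_eq_one_iff_eq (card_orders_pos n).ne']
  have h := card_filter_add_card_filter_not (s := (univ : Finset (Fin (n.choose 2) ≃ Edge n))) A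
  rw [card_univ] at h
  have h2 : (((univ : Finset (Fin (n.choose 2) ≃ Edge n)).filter A).card : ℝ)
      + (((univ : Finset (Fin (n.choose 2) ≃ Edge n)).filter fun σ => ¬ A σ).card : ℝ)
      = (Fintype.card (Fin (n.choose 2) ≃ Edge n) : ℝ) := by exact_mod_cast h
  rw [← h2]
  congr 1
  exact le_antisymm (fcard_le _ _ fun _ h => h) (fcard_le _ _ fun _ h => h)

theorem prob_mono (n : ℕ) (A B : (Fin (n.choose 2) ≃ Edge n) → Prop) (h : ∀ σ, A σ → B σ) :
    prob n A ≤ prob n B := by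
  unfold prob
  exact div_le_div_of_nonneg_right (fcard_le _ _ h) (card_orders_pos n).le

/-- quantitative form, in linear time -/
theorem quant (ε : ℝ) (hε : 0 < ε) : ∃ K n0 : ℕ, ∀ n ≥ n0,
    1 - 2 * (1 / 2 : ℝ) ^ n ≤ prob n fun σ => ∀ m : ℕ, K * n ≤ m →
      |((DU (proc σ m)).card : ℝ) - (n : ℝ) / 2| ≤ ε * ((n : ℝ) / 2) := by
  obtain ⟨K, n0, h⟩ := main1 (min (ε / 2) (1 / 2)) (by positivity) (min_le_right _ _)
  refine ⟨4 * K, n0, fun n hn => ?_⟩
  have h1 := h n hn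
  have h2 := prob_compl n (fun σ => ∀ m : ℕ, 4 * K * n ≤ m →
        |((DU (proc σ m)).card : ℝ) - (n : ℝ) / 2| ≤ min (ε / 2) (1 / 2) * n)
  have h3 := prob_mono n (fun σ => ∀ m : ℕ, 4 * K * n ≤ m →
        |((DU (proc σ m)).card : ℝ) - (n : ℝ) / 2| ≤ min (ε / 2) (1 / 2) * n)
    (fun σ => ∀ m : ℕ, 4 * K * n ≤ m →
      |((DU (proc σ m)).card : ℝ) - (n : ℝ) / 2| ≤ ε * ((n : ℝ) / 2)) (by
      intro σ hσ m hm
      refine (hσ m hm).trans ?_
      have h4 : min (ε / 2) (1 / 2) * (n : ℝ) ≤ ε / 2 * n :=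
        mul_le_mul_of_nonneg_right (min_le_left _ _) (Nat.cast_nonneg _)
      linarith)
  linarith

theorem diag (ω : ℕ → ℝ) (hω : Tendsto ω atTop atTop) :
    ∃ ε : ℕ → ℝ, Tendsto ε atTop (𝓝 0) ∧
      Tendsto (fun n : ℕ => prob n fun σ => ∀ m : ℕ, ω n * n ≤ m →
        |((DU (proc σ m)).card : ℝ) - (n : ℝ) / 2| ≤ ε n * ((n : ℝ) / 2)) atTop (𝓝 1) := by
  have hj : ∀ j : ℕ, ∃ N : ℕ, ∀ n ≥ N, 1 - 2 * (1 / 2 : ℝ) ^ n ≤ prob n fun σ => ∀ m : ℕ,
      ω n * n ≤ m → |((DU (proc σ m)).card : ℝ) - (n : ℝ) / 2| ≤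
        (1 / ((j : ℝ) + 1)) * ((n : ℝ) / 2) := by
    intro j
    obtain ⟨K, n0, h⟩ := quant (1 / ((j : ℝ) + 1)) (by positivity)
    obtain ⟨N1, hN1⟩ := eventually_atTop.1 (hω.eventually_ge_atTop (K : ℝ))
    refine ⟨max n0 N1, fun n hn => (h n ((le_max_left _ _).trans hn)).trans ?_⟩
    apply prob_mono
    intro σ hσ m hm
    apply hσ
    have h2 := hN1 n ((le_max_right _ _).trans hn)
    have h3 : (K : ℝ) * n ≤ ω n * n := mul_le_mul_of_nonneg_right h2 (Nat.cast_nonneg _)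
    exact_mod_cast h3.trans hm
  choose Nf hNf using hj
  set J : ℕ → ℕ := fun n => Nat.findGreatest (fun j => Nf j ≤ n) n with hJ
  have hJt : Tendsto J atTop atTop := by
    rw [tendsto_atTop_atTop]
    intro b
    refine ⟨max b (Nf b), fun n hn => ?_⟩
    exact Nat.le_findGreatest ((le_max_left _ _).trans hn) ((le_max_right _ _).trans hn)
  refine ⟨fun n => 1 / ((J n : ℝ) + 1), ?_, ?_⟩
  · exact tendsto_one_div_add_atTop_nhds_zero_nat.comp hJt
  · have hlow : ∀ᶠ n in atTop, 1 - 2 * (1 / 2 : ℝ) ^ n ≤ prob n fun σ => ∀ m : ℕ, ω n * n ≤ m →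
        |((DU (proc σ m)).card : ℝ) - (n : ℝ) / 2| ≤ 1 / ((J n : ℝ) + 1) * ((n : ℝ) / 2) := by
      filter_upwards [eventually_ge_atTop (Nf 0)] with n hn
      have hspec : Nf (J n) ≤ n :=
        Nat.findGreatest_spec (P := fun j => Nf j ≤ n) (Nat.zero_le n) hn
      exact hNf (J n) n hspec
    have hlim : Tendsto (fun n : ℕ => 1 - 2 * (1 / 2 : ℝ) ^ n) atTop (𝓝 1) := by
      have h1 := (tendsto_pow_atTop_nhds_zero_of_lt_one (show (0 : ℝ) ≤ 1 / 2 by norm_num)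
        (by norm_num)).const_mul 2
      have h2 := h1.const_sub 1
      simpa using h2
    exact tendsto_of_tendsto_of_tendsto_of_le_of_le' hlim tendsto_const_nhds hlow
      (Eventually.of_forall fun n => prob_le_one n _)

/-- **The union `D_m` of the optimal covers of the random König graph process.**
(i) Q1: for some `c > 0` there is `ε(n) → 0` such that, with probability tending to `1`,
`||D_m| - n/2| ≤ ε(n) n/2` for all `m` with `c n log n ≤ m ≤ N`.
(ii) The same holds for all `m ≥ ω(n) n`, for any `ω(n) → ∞` (so (i) holds for every `c > 0`).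
(iii) For every `ε > 0` there is a constant `K` such that, for `n` large, with probability at least
`1 - 2 * 2^(-n)`, `||D_m| - n/2| ≤ ε n/2` for all `m` with `K n ≤ m ≤ N`. -/
theorem result :
    (∃ c : ℝ, 0 < c ∧ ∃ ε : ℕ → ℝ, Tendsto ε atTop (𝓝 0) ∧
      Tendsto (fun n : ℕ => prob n fun σ => ∀ m : ℕ, c * n * Real.log n ≤ m → m ≤ n.choose 2 →
        |((DU (proc σ m)).card : ℝ) - (n : ℝ) / 2| ≤ ε n * ((n : ℝ) / 2)) atTop (𝓝 1)) ∧
    (∀ ω : ℕ → ℝ, Tendsto ω atTop atTop → ∃ ε : ℕ → ℝ, Tendsto ε atTop (𝓝 0) ∧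
      Tendsto (fun n : ℕ => prob n fun σ => ∀ m : ℕ, ω n * n ≤ m → m ≤ n.choose 2 →
        |((DU (proc σ m)).card : ℝ) - (n : ℝ) / 2| ≤ ε n * ((n : ℝ) / 2)) atTop (𝓝 1)) ∧
    (∀ ε : ℝ, 0 < ε → ∃ K n0 : ℕ, ∀ n ≥ n0, 1 - 2 * (1 / 2 : ℝ) ^ n ≤
      prob n fun σ => ∀ m : ℕ, K * n ≤ m → m ≤ n.choose 2 →
        |((DU (proc σ m)).card : ℝ) - (n : ℝ) / 2| ≤ ε * ((n : ℝ) / 2)) := by
  have h2 : ∀ ω : ℕ → ℝ, Tendsto ω atTop atTop → ∃ ε : ℕ → ℝ, Tendsto ε atTop (𝓝 0) ∧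
      Tendsto (fun n : ℕ => prob n fun σ => ∀ m : ℕ, ω n * n ≤ m → m ≤ n.choose 2 →
        |((DU (proc σ m)).card : ℝ) - (n : ℝ) / 2| ≤ ε n * ((n : ℝ) / 2)) atTop (𝓝 1) := by
    intro ω hω
    obtain ⟨ε, hε, h⟩ := diag ω hω
    refine ⟨ε, hε, ?_⟩
    refine tendsto_of_tendsto_of_tendsto_of_le_of_le h tendsto_const_nhds
      (fun n => ?_) (fun n => prob_le_one n _)
    apply prob_mono
    intro σ hσ m hm _
    exact hσ m hm
  refine ⟨⟨1, one_pos, ?_⟩, h2, ?_⟩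
  · obtain ⟨ε, hε, h⟩ := h2 (fun n => Real.log n)
      (Real.tendsto_log_atTop.comp tendsto_natCast_atTop_atTop)
    refine ⟨ε, hε, ?_⟩
    refine tendsto_of_tendsto_of_tendsto_of_le_of_le h tendsto_const_nhds
      (fun n => ?_) (fun n => prob_le_one n _)
    apply prob_mono
    intro σ hσ m hm hm'
    apply hσ m _ hm'
    linarith
  · intro ε hε
    obtain ⟨K, n0, h⟩ := quant ε hε
    refine ⟨K, n0, fun n hn => (h n hn).trans ?_⟩
    apply prob_mono
    intro σ hσ m hm _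
    exact hσ m hm

end Pool.Agent.Results.MP_de3ac5_pr.UnionOfOptimalCovers
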